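import Pool.Agent.Lib.SmN.Cnt.Defs
import Pool.Agent.Lib.SmN.G.CTDefs

/-!
# SMITH-U (SmN), counting half: the statements exchanged between the blocks G6, I, J, K, L
-/

set_option autoImplicit false

open Finset

namespace Pool.Agent.SmN

/-- The bound between small and large degrees. -/
noncomputable def N0 (n : ℕ) : ℕ := ⌊(Real.log n) ^ 3⌋₊

/-- The directions: `none = ib`, `some none = ia`, `some (some i)` the unsupported ones. -/
abbrev Dir (m : ℕ) : Type := Option (Option (Fin m))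

/-! ### Block K: anatomy of squarefree divisors -/

/-- Nice divisors. -/
structure NiceN (X : PSys) (m0 : ℕ) (c0 δ : ℝ) (n : ℕ) (D : Finset X.Pr) : Prop where
  few : (D.card : ℝ) ≤ 2 * Real.log n
  dist : ∀ P ∈ D, ∀ Q ∈ D, N0 n ≤ X.deg P → X.deg P = X.deg Q → P = Q
  many : c0 * Real.log n ≤ Nat.card {P : X.Pr // P ∈ D ∧ N0 n ≤ X.deg P ∧ m0 ∣ X.deg P}
  small : (Nat.card {P : X.Pr // P ∈ D ∧ X.deg P < N0 n} : ℝ) ≤ δ * Real.log n

/-- **Block K** (owner helper22). -/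
def KThm (X : PSys) (m0 : ℕ) (c0 : ℝ) : Prop :=
  ∀ ε δ : ℝ, 0 < ε → 0 < δ → ∃ n₀, ∀ n ≥ n₀,
    (Nat.card {D : Finset X.Pr // X.degS D = n ∧ ¬ NiceN X m0 c0 δ n D} : ℝ) ≤ ε * X.nDD n

/-- A grid: the small primes and the degrees of the large ones. -/
structure GrN (X : PSys) (m0 : ℕ) (c0 δ : ℝ) (n : ℕ) (Ds : Finset X.Pr) (T : Finset ℕ) :
    Prop where
  deg : X.degS Ds + ∑ t ∈ T, t = n
  few : ((Ds.card + T.card : ℕ) : ℝ) ≤ 2 * Real.log n
  large : ∀ t ∈ T, N0 n ≤ t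
  sml : ∀ P ∈ Ds, X.deg P < N0 n
  many : c0 * Real.log n ≤ (T.filter fun t => m0 ∣ t).card
  small : (Ds.card : ℝ) ≤ δ * Real.log n

section

variable {G V V1 Pl : Type} [Group G] [AddCommGroup V] [DistribMulAction G V]
  [AddCommGroup V1] [Module (ZMod 2) V1]

namespace CData

variable {S : Sys G V V1 Pl} {X : PSys} (cd : CData S X)

/-- The marked points of a grid. -/
abbrev MPts (T : Finset ℕ) : Type := (t : T) → X.Of t × {g : G // g ∈ cd.R}

/-- The index set of a grid. -/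
abbrev JG (Ds : Finset X.Pr) (T : Finset ℕ) : Type := Ds ⊕ T

/-- The vector of marked primes of a point (the small primes carry the mark `r0`). -/
def vec (r0 : {g : G // g ∈ cd.R}) (Ds : Finset X.Pr) {T : Finset ℕ} (x : cd.MPts T) :
    JG Ds T → cd.Mk
  | Sum.inl P => (P.1, r0)
  | Sum.inr t => ((x t).1.1, (x t).2)

/-! ### Block J -/

/-- **Block J** (owner helper14): almost all marked points of every nice grid are typical. -/
def JThm (m0 : ℕ) (c0 : ℝ) (r0 : {g : G // g ∈ cd.R}) : Prop :=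
  ∀ ε : ℝ, 0 < ε → ∃ (R : ℕ) (ρ δ : ℝ), 0 < ρ ∧ 0 < δ ∧ ∃ n₀, ∀ n ≥ n₀,
    ∀ (Ds : Finset X.Pr) (T : Finset ℕ), GrN X m0 c0 δ n Ds T →
      (Nat.card {x : cd.MPts T // ¬ cd.TypN (cd.vec r0 Ds x) R ρ (N0 n)} : ℝ) ≤
        ε * Nat.card (cd.MPts T)

variable {J : Type} [Fintype J]

/-! ### The tower of Selmer cocycles in codes -/

/-- `Psi` is a Selmer cocycle of level `i` above the code `a`: `2 ^ (i - 1) Psi = a`. -/
def AbvN (p : J → cd.Mk) (i : ℕ) (a : cd.CodeN J) (Psi : G → V) : Prop :=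
  S.IsSel (cd.chiN p) i Psi ∧ ∀ s, (2 : ℕ) ^ (i - 1) • Psi s = S.iota (cd.homN p a s)

/-- The relation `Lam i`: the pairs `(a, <Psi, .>)`, `Psi` of level `i` above `a`. The functional is
extended by `0` to the codes outside `FN`. -/
def LamN (p : J → cd.Mk) (i : ℕ) : Set (cd.CodeN J × (cd.CodeN J → ZMod 2)) :=
  {y | y.1 ∈ cd.FN p ∧ ∃ Psi : G → V, cd.AbvN p i y.1 Psi ∧
    (∀ c ∈ cd.FN p, y.2 c = S.CT (cd.chiN p) Psi (cd.homN p c)) ∧
    ∀ c, c ∉ cd.FN p → y.2 c = 0}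

open Classical in
/-- `F_ab`: the value `<Psi, b>` for `Psi` of level `m` above `a` (`0` if there is none). -/
noncomputable def FFN (p : J → cd.Mk) (m : ℕ) (a b : cd.CodeN J) : ZMod 2 :=
  if h : ∃ Psi : G → V, cd.AbvN p m a Psi then S.CT (cd.chiN p) h.choose (cd.homN p b) else 0

/-- `L 1 = F`, `L (i + 1) = {a | (a, 0) ∈ Lam i}`. -/
def LflN {J : Type} (F : Set (cd.CodeN J)) (Lam : ℕ → Set (cd.CodeN J × (cd.CodeN J → ZMod 2))) :
    ℕ → Set (cd.CodeN J)
  | 0 => F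
  | 1 => F
  | i + 2 => {a | (a, 0) ∈ Lam (i + 1)}

/-- `b` is perpendicular to all Selmer cocycles of level `i` (`i = 0`: no condition). -/
def PerpN {J : Type} (Lam : ℕ → Set (cd.CodeN J × (cd.CodeN J → ZMod 2))) (i : ℕ)
    (b : cd.CodeN J) : Prop :=
  1 ≤ i → ∀ y ∈ Lam i, y.2 b = 0

/-- `a` and `b` are independent modulo the coboundaries. -/
def Indep2N {J : Type} (a b : cd.CodeN J) : Prop :=
  ∀ (x y : ZMod 2) (z : V1), x • a + y • b = cd.kapN J z → x = 0 ∧ y = 0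

/-- A basis of `F` modulo the coboundaries, adapted to the flag, with `c l1 = a` and `b` in the span
of the others. -/
structure BasN {J : Type} (F : Set (cd.CodeN J)) (L : ℕ → Set (cd.CodeN J)) (m : ℕ)
    (a b : cd.CodeN J) where
  r : ℕ
  c : Fin r → cd.CodeN J
  l1 : Fin r
  l0 : Fin r
  ne : l0 ≠ l1
  c_l1 : c l1 = a
  mem : ∀ l, c l ∈ F
  span : ∀ x ∈ F, ∃ (α : Fin r → ZMod 2) (z : V1), x = cd.kapN J z + ∑ l, α l • c l
  indep : ∀ (α : Fin r → ZMod 2) (z : V1), ∑ l, α l • c l = cd.kapN J z → α = 0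
  adapted : ∀ i, 1 ≤ i → i ≤ m → ∀ x ∈ L i, ∃ (α : Fin r → ZMod 2) (z : V1),
    x = cd.kapN J z + ∑ l, α l • c l ∧ ∀ l, α l ≠ 0 → c l ∈ L i
  β : Fin r → ZMod 2
  b_eq : b = ∑ l, β l • c l
  β_l1 : β l1 = 0
  β_l0 : β l0 = 1

/-- The basis with the prescribed supports in the directions. -/
structure SuppN {J : Type} (F : Set (cd.CodeN J)) (L : ℕ → Set (cd.CodeN J)) (m : ℕ)
    (a b : cd.CodeN J) (dir : Dir m ↪ J) extends cd.BasN F L m a b where
  e : V1
  e' : V1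
  supp0 : ∀ l (i : Fin m), (c l).2 (dir (some (some i))) = 0
  suppa : ∀ l, (c l).2 (dir (some none)) = if l = l1 then e else 0
  suppb : ∀ l, (c l).2 (dir none) = if l = l0 then e' else 0
  pair : S.e e e' = 1

/-- The number of the Selmer cocycles of level `i`. -/
noncomputable def nZN (p : J → cd.Mk) (i : ℕ) : ℕ :=
  Nat.card {Psi : G → V // S.IsSel (cd.chiN p) i Psi}

open Classical in
/-- **Block G6** (owner helper76): what block L needs for one vector `p` with `PVecN p` and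
`J` nonempty. -/
structure LFactsN (p : J → cd.Mk) : Prop where
  fin : ∀ i, Finite {Psi : G → V // S.IsSel (cd.chiN p) i Psi}
  card_zero : cd.nZN p 0 = 1
  card_succ : ∀ i, cd.nZN p (i + 1) =
    cd.nZN p i * Nat.card (cd.LflN (cd.FN p) (cd.LamN p) (i + 1))
  recur : ∀ i, 1 ≤ i → (cd.nZN p (i + 1) : ℝ) ≤ 3 * Nat.card V1 * cd.nZN p i +
    cd.nZN p (i - 1) * ∑ᶠ ab : cd.CodeN J × cd.CodeN J,
      if ab.1 ∈ cd.LflN (cd.FN p) (cd.LamN p) i ∧ ab.2 ∈ cd.FN p ∧ cd.Indep2N ab.1 ab.2 ∧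
        cd.PerpN (cd.LamN p) (i - 1) ab.2 then (-1 : ℝ) ^ (cd.FFN p i ab.1 ab.2).val else 0
  basis : ∀ m, 1 ≤ m → ∀ a ∈ cd.LflN (cd.FN p) (cd.LamN p) m, ∀ b ∈ cd.FN p,
    cd.Indep2N a b → Nonempty (cd.BasN (cd.FN p) (cd.LflN (cd.FN p) (cd.LamN p)) m a b)

/-! ### Block I -/

open Classical in
/-- The vector `p` with the entries in the directions replaced by `x`. -/
noncomputable def replN {J I : Type} (p : J → cd.Mk) (dir : I ↪ J) (x : I → cd.Mk) (j : J) :
    cd.Mk := if h : ∃ i, dir i = j then x h.choose else p j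

/-- The BIG class in the direction `i`: the marked primes with the degree, the class `kf` and the
symbols with respect to all entries of `p` off the directions of `p (dir i)`. This is a Chebotarev
class. -/
def XB {J : Type} {m : ℕ} (p : J → cd.Mk) (dir : Dir m ↪ J) (i : Dir m) : Type :=
  {x : cd.Mk // X.deg x.1 = X.deg (p (dir i)).1 ∧
    cd.kf (cd.phx x) = cd.kf (cd.phx (p (dir i))) ∧
    ∀ j, (∀ i', dir i' ≠ j) →
      cd.ch (p j).1 (cd.phx x) = cd.ch (p j).1 (cd.phx (p (dir i))) ∧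
      ∀ w, cd.Fx (p j) w → cd.bex (p j) w (cd.phx x) = cd.bex (p j) w (cd.phx (p (dir i)))}

/-- The same symbols between the directions and the same self symbols. -/
structure DirEq {m : ℕ} {J : Type} (dir : Dir m ↪ J) (p p' : J → cd.Mk) : Prop where
  ch : ∀ i l, i ≠ l → cd.ch (p (dir i)).1 (cd.phx (p (dir l))) =
    cd.ch (p' (dir i)).1 (cd.phx (p' (dir l)))
  be : ∀ i l, i ≠ l → ∀ w, cd.bex (p (dir i)) w (cd.phx (p (dir l))) =
    cd.bex (p' (dir i)) w (cd.phx (p' (dir l)))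
  self : ∀ i w, cd.bex (p (dir i)) w (cd.phx (p (dir i))) +
      cd.ch (p (dir i)).1 (cd.phx (p (dir i))) • w =
    cd.bex (p' (dir i)) w (cd.phx (p' (dir i))) +
      cd.ch (p' (dir i)).1 (cd.phx (p' (dir i))) • w

/-- Same direction symbols and same relations below level `m`. -/
def TypEqN {m : ℕ} (dir : Dir m ↪ J) (p p' : J → cd.Mk) : Prop :=
  cd.DirEq dir p p' ∧ cd.FN p = cd.FN p' ∧ ∀ i, 1 ≤ i → i < m → cd.LamN p i = cd.LamN p' i

/-- The hypotheses on a vector and its directions. -/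
structure DirOk {m : ℕ} (p : J → cd.Mk) (dir : Dir m ↪ J) : Prop where
  vec : cd.PVecN p
  few : (Nat.card J : ℝ) ≤ 2 * Real.log (cd.degN p)
  large : ∀ i, N0 (cd.degN p) ≤ X.deg (p (dir i)).1
  dist : ∀ i j, X.deg (p j).1 = X.deg (p (dir i)).1 → j = dir i
  split : ∀ i, cd.Split (p (dir i))

/-- **Frame** (block I, owner helper67): the Selmer codes are constant along the points of the big
grid with the same direction symbols. -/
def FrameThm : Prop :=
  ∀ (J : Type) (_ : Fintype J) (m : ℕ) (p : J → cd.Mk) (dir : Dir m ↪ J), cd.DirOk p dir →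
    ∀ x y : (i : Dir m) → cd.XB p dir i,
      cd.DirEq dir (cd.replN p dir fun i => (x i).1) (cd.replN p dir fun i => (y i).1) →
      cd.FN (cd.replN p dir fun i => (x i).1) = cd.FN (cd.replN p dir fun i => (y i).1)

open Classical in
/-- **Theorem I** at level `m` (block I, owner helper67). -/
def GridThmN (q m : ℕ) : Prop :=
  ∀ (R : ℕ) (η : ℝ), 0 < η → ∃ n₀ : ℕ, ∀ (J : Type) (_ : Fintype J) (p : J → cd.Mk)
    (a b : cd.CodeN J) (dir : Dir m ↪ J), cd.DirOk p dir → n₀ ≤ cd.degN p →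
    Nat.card (cd.FN p) ≤ 2 ^ R →
    a ∈ cd.LflN (cd.FN p) (cd.LamN p) m →
    b ∈ cd.FN p →
    cd.PerpN (cd.LamN p) (m - 1) b →
    Nonempty (cd.SuppN (cd.FN p) (cd.LflN (cd.FN p) (cd.LamN p)) m a b dir) →
    (∀ i, (q : ℝ) ^ (9 * X.deg (p (dir i)).1 / 10) ≤ Nat.card (cd.XB p dir i)) →
    |∑ᶠ x : (i : Dir m) → cd.XB p dir i,
        if cd.TypEqN dir (cd.replN p dir fun i => (x i).1) p then
          (-1 : ℝ) ^ (cd.FFN (cd.replN p dir fun i => (x i).1) m a b).val else 0| ≤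
      η * ∏ i, (Nat.card (cd.XB p dir i) : ℝ)

/-! ### Block L -/

/-- The character of the twist by `D`. -/
def chiD (D : Finset X.Pr) (s : G) : ZMod 2 := cd.chi0 s + ∑ P ∈ D, cd.ch P s

/-- **Block L** (owner helper93): the conclusion of the counting half. -/
def LThm : Prop :=
  ∀ ε : ℝ, 0 < ε → ∃ m₁ : ℕ, ∀ m ≥ m₁, ∃ n₀ : ℕ, ∀ n ≥ n₀,
    (Nat.card {D : Finset X.Pr // X.degS D = n ∧
      ¬ (Finite {Psi : G → V // S.IsSel (cd.chiD D) m Psi} ∧
        Nat.card {Psi : G → V // S.IsSel (cd.chiD D) m Psi} < (4 * Nat.card V1) ^ m)} : ℝ) ≤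
      ε * X.nDD n

end CData

end

end Pool.Agent.SmN
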